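import Pool.Agent.Y738.PE.Stm

/-! # PE-J6: expectations of contractions are bounded by the squared norm -/

set_option autoImplicit false

open scoped BigOperators ComplexConjugate Classical

noncomputable section

namespace Pool.Agent.Y65.PE

open Pool.Agent.Y738.PE

/-- the exchange of the content of a box -/
def exch {S T : Type} (bx : S → T) (pt : S → T → S) (h1 : ∀ s σ, bx (pt s σ) = σ)
    (h2 : ∀ s σ τ, pt (pt s σ) τ = pt s τ) (h3 : ∀ s, pt s (bx s) = s) : S × T ≃ S × T where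
  toFun x := (pt x.1 x.2, bx x.1)
  invFun x := (pt x.1 x.2, bx x.1)
  left_inv x := by
    obtain ⟨s, σ⟩ := x
    simp only [h1, h2, h3]
  right_inv x := by
    obtain ⟨s, σ⟩ := x
    simp only [h1, h2, h3]

/-- averaging over the contents of a box -/
lemma avg {S T : Type} [Fintype S] [Fintype T] {E : Type} [AddCommMonoid E] (bx : S → T)
    (pt : S → T → S) (h1 : ∀ s σ, bx (pt s σ) = σ) (h2 : ∀ s σ τ, pt (pt s σ) τ = pt s τ)
    (h3 : ∀ s, pt s (bx s) = s) (G : S → E) :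
    Fintype.card T • ∑ s, G s = ∑ s, ∑ σ, G (pt s σ) := by
  have e1 : ∑ x : S × T, G x.1 = ∑ x : S × T, G (pt x.1 x.2) := by
    refine Fintype.sum_equiv (exch bx pt h1 h2 h3) _ _ fun x => ?_
    show G x.1 = G (pt (pt x.1 x.2) (bx x.1))
    rw [h2, h3]
  rw [Fintype.sum_prod_type, Fintype.sum_prod_type] at e1
  rw [← e1]
  simp only [Finset.sum_const, Finset.card_univ]
  rw [Finset.smul_sum]

lemma form_le {T : Type} [Fintype T] (B : T → T → ℂ) (hB : Contr B) (f : T → ℂ) :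
    ‖∑ σ, ∑ τ, conj (f σ) * B σ τ * f τ‖ ≤ nrm f := by
  have h1 := hB f
  have e : ∑ σ, ∑ τ, conj (f σ) * B σ τ * f τ = ∑ σ, conj (f σ) * ∑ τ, B σ τ * f τ := by
    apply Finset.sum_congr rfl
    intro σ _
    rw [Finset.mul_sum]
    apply Finset.sum_congr rfl
    intro τ _
    ring
  rw [e]
  have h2 : ∀ σ, ‖conj (f σ) * ∑ τ, B σ τ * f τ‖ ≤
      (‖f σ‖ ^ 2 + ‖∑ τ, B σ τ * f τ‖ ^ 2) / 2 := by
    intro σ
    rw [norm_mul, RCLike.norm_conj]
    nlinarith [sq_nonneg (‖f σ‖ - ‖∑ τ, B σ τ * f τ‖)]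
  refine (norm_sum_le _ _).trans ((Finset.sum_le_sum fun σ _ => h2 σ).trans ?_)
  rw [← Finset.sum_div, Finset.sum_add_distrib]
  unfold nrm at h1 ⊢
  linarith

/-- the abstract bound -/
theorem bound_abs {S T : Type} [Fintype S] [Fintype T] (bx : S → T)
    (pt : S → T → S) (h1 : ∀ s σ, bx (pt s σ) = σ) (h2 : ∀ s σ τ, pt (pt s σ) τ = pt s τ)
    (h3 : ∀ s, pt s (bx s) = s) (Ψ : S → ℂ) (B : T → T → ℂ) (hB : Contr B) :
    ‖∑ s, ∑ τ, conj (Ψ s) * B (bx s) τ * Ψ (pt s τ)‖ ≤ nrm Ψ := by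
  rcases Nat.eq_zero_or_pos (Fintype.card T) with h0 | hpos
  · have hT : IsEmpty T := Fintype.card_eq_zero_iff.1 h0
    have hS : IsEmpty S := ⟨fun s => hT.false (bx s)⟩
    simp [nrm]
  · have g1 := avg bx pt h1 h2 h3 (fun s => ∑ τ, conj (Ψ s) * B (bx s) τ * Ψ (pt s τ))
    have g2 := avg bx pt h1 h2 h3 (fun s => ‖Ψ s‖ ^ 2)
    simp only [h1, h2] at g1
    have hK : (0 : ℝ) < Fintype.card T := by exact_mod_cast hpos
    have g3 : (Fintype.card T : ℝ) * ‖∑ s, ∑ τ, conj (Ψ s) * B (bx s) τ * Ψ (pt s τ)‖ ≤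
        (Fintype.card T : ℝ) * nrm Ψ := by
      have e1 : (Fintype.card T : ℝ) * ‖∑ s, ∑ τ, conj (Ψ s) * B (bx s) τ * Ψ (pt s τ)‖ =
          ‖∑ s, ∑ σ, ∑ τ, conj (Ψ (pt s σ)) * B σ τ * Ψ (pt s τ)‖ := by
        rw [← g1, nsmul_eq_mul, norm_mul]
        simp
      have e2 : (Fintype.card T : ℝ) * nrm Ψ = ∑ s, ∑ σ, ‖Ψ (pt s σ)‖ ^ 2 := by
        rw [← g2, nsmul_eq_mul]
        rfl
      rw [e1, e2]
      refine (norm_sum_le _ _).trans (Finset.sum_le_sum fun s _ => ?_)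
      exact form_le B hB (fun σ => Ψ (pt s σ))
    exact le_of_mul_le_mul_left g3 hK

section box

variable {d L r : ℕ} [NeZero L]

lemma box_put (hr : r ≤ L) (s : Conf d L) (v : Site L) (σ : BConf d r) :
    box r (put s v σ) v = σ := by
  funext p
  have e1 : (v.1 + ((p.1 : ℕ) : ZMod L) - v.1).val = p.1 := by
    rw [add_sub_cancel_left, ZMod.val_natCast_of_lt (lt_of_lt_of_le p.1.2 hr)]
  have e2 : (v.2 + ((p.2 : ℕ) : ZMod L) - v.2).val = p.2 := by
    rw [add_sub_cancel_left, ZMod.val_natCast_of_lt (lt_of_lt_of_le p.2.2 hr)]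
  unfold box put
  simp only [e1, e2]
  rw [dif_pos ⟨p.1.2, p.2.2⟩]

lemma put_put (s : Conf d L) (v : Site L) (σ τ : BConf d r) :
    put (put s v σ) v τ = put s v τ := by
  funext w
  unfold put
  split_ifs <;> rfl

lemma put_box (s : Conf d L) (v : Site L) : put s v (box r s v) = s := by
  funext w
  unfold put
  split_ifs with h
  · unfold box
    simp only [ZMod.natCast_val, ZMod.cast_id', id_eq]
    congr 1
    ext <;> simp
  · rfl

end box

theorem bound : StmBound := by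
  intro d L r _ hr Ψ v B hB
  exact bound_abs (fun s => box r s v) (fun s τ => put s v τ) (fun s σ => box_put hr s v σ)
    (fun s σ τ => put_put s v σ τ) (fun s => put_box s v) Ψ B hB

section sub

variable {d m r : ℕ}

lemma subBox_subPut (p : ℕ × ℕ) (h : p.1 + r ≤ m ∧ p.2 + r ≤ m) (σ : BConf d m)
    (τ : BConf d r) : subBox (subPut σ p τ) p h = τ := by
  funext q
  have h1 := q.1.2
  have h2 := q.2.2
  unfold subBox subPut
  simp only
  rw [dif_pos ⟨⟨by omega, by omega⟩, ⟨by omega, by omega⟩⟩]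
  congr 1
  ext <;> simp

lemma subPut_subPut (p : ℕ × ℕ) (σ : BConf d m) (τ τ' : BConf d r) :
    subPut (subPut σ p τ) p τ' = subPut σ p τ' := by
  funext q
  unfold subPut
  split_ifs <;> rfl

lemma subPut_subBox (p : ℕ × ℕ) (h : p.1 + r ≤ m ∧ p.2 + r ≤ m) (σ : BConf d m) :
    subPut σ p (subBox σ p h) = σ := by
  funext q
  unfold subPut
  split_ifs with h1
  · unfold subBox
    congr 1
    ext
    · simp only
      omega
    · simp only
      omega
  · rfl

end sub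

/-- the analogue for blocks -/
theorem boundBlock {d m r : ℕ} (Φ : BConf d m → ℂ) (p : ℕ × ℕ) (h : p.1 + r ≤ m ∧ p.2 + r ≤ m)
    (B : BConf d r → BConf d r → ℂ) (hB : Contr B) : ‖expecBlock Φ p h B‖ ≤ nrm Φ :=
  bound_abs (fun s => subBox s p h) (fun s τ => subPut s p τ) (fun s σ => subBox_subPut p h s σ)
    (fun s σ τ => subPut_subPut p s σ τ) (fun s => subPut_subBox p h s) Φ B hB

end Pool.Agent.Y65.PE
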