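import Pool.Agent.Y65.PE.Bound

/-! # PE-J9: symmetric purification of the marginal on a rectangle -/

set_option autoImplicit false

open scoped BigOperators ComplexConjugate Classical ComplexOrder

noncomputable section

namespace Pool.Agent.Y65.PE

open Pool.Agent.Y738.PE

/-- a symmetric square root in the sense `Θ Θ* = ρ` -/
lemma takagi {T : Type} [Fintype T] (ρ : Matrix T T ℂ) (h : ρ.PosSemidef) :
    ∃ Θ : Matrix T T ℂ, Θ.transpose = Θ ∧ Θ * Θ.conjTranspose = ρ := by
  obtain ⟨U, hU⟩ : ∃ U : Matrix T T ℂ, U = (h.1.eigenvectorUnitary : Matrix T T ℂ) := ⟨_, rfl⟩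
  obtain ⟨D, hD⟩ : ∃ D : Matrix T T ℂ,
    D = Matrix.diagonal (fun i => ((√(h.1.eigenvalues i) : ℝ) : ℂ)) := ⟨_, rfl⟩
  have hUU : U.conjTranspose * U = 1 := by
    rw [hU]
    exact Matrix.mem_unitaryGroup_iff'.1 h.1.eigenvectorUnitary.2
  have hDD : D * D.conjTranspose =
      Matrix.diagonal (fun i => ((h.1.eigenvalues i : ℝ) : ℂ)) := by
    rw [hD, Matrix.diagonal_conjTranspose, Matrix.diagonal_mul_diagonal]
    congr 1
    funext i
    simp only [Pi.star_apply, RCLike.star_def, Complex.conj_ofReal]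
    rw [← Complex.ofReal_mul, Real.mul_self_sqrt (h.eigenvalues_nonneg i)]
  have hρ : ρ = U * Matrix.diagonal (fun i => ((h.1.eigenvalues i : ℝ) : ℂ)) *
      U.conjTranspose := by
    have h1 := h.1.spectral_theorem
    rw [Unitary.conjStarAlgAut_apply] at h1
    rw [hU]
    exact h1
  refine ⟨U * D * U.transpose, ?_, ?_⟩
  · rw [Matrix.transpose_mul, Matrix.transpose_mul, Matrix.transpose_transpose, hD,
      Matrix.diagonal_transpose, Matrix.mul_assoc]
  · have h2 : U.transpose * U.transpose.conjTranspose = 1 := by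
      have h3 : U.transpose.conjTranspose = U.conjTranspose.transpose := rfl
      rw [h3, ← Matrix.transpose_mul, hUU, Matrix.transpose_one]
    rw [Matrix.conjTranspose_mul, Matrix.conjTranspose_mul]
    calc U * D * U.transpose * (U.transpose.conjTranspose * (D.conjTranspose * U.conjTranspose)) =
        U * D * (U.transpose * U.transpose.conjTranspose) *
          (D.conjTranspose * U.conjTranspose) := by
          simp only [Matrix.mul_assoc]
      _ = U * (D * D.conjTranspose) * U.conjTranspose := by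
          rw [h2]
          simp only [Matrix.mul_assoc, Matrix.one_mul, Matrix.mul_one]
      _ = ρ := by rw [hDD, ← hρ]

/-- contents of the rectangle -/
abbrev RC (d n : ℕ) := Fin n × Fin (2 * n) → Fin d

section rect

variable {d L n : ℕ} [NeZero L]

/-- the content of the rectangle -/
def rect (n : ℕ) (s : Conf d L) : RC d n := fun q => s (((q.1 : ℕ) : ZMod L), ((q.2 : ℕ) : ZMod L))

/-- change of the content of the rectangle -/
def putR (s : Conf d L) (a : RC d n) : Conf d L :=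
  fun w => if h : w.1.val < n ∧ w.2.val < 2 * n then a (⟨w.1.val, h.1⟩, ⟨w.2.val, h.2⟩) else s w

lemma rect_putR (hL : 2 * n ≤ L) (s : Conf d L) (a : RC d n) : rect n (putR s a) = a := by
  funext q
  have h1 := q.1.2
  have h2 := q.2.2
  have e1 : (((q.1 : ℕ) : ZMod L)).val = q.1 := ZMod.val_natCast_of_lt (by omega)
  have e2 : (((q.2 : ℕ) : ZMod L)).val = q.2 := ZMod.val_natCast_of_lt (by omega)
  unfold rect putR
  simp only [e1, e2]
  rw [dif_pos ⟨h1, h2⟩]

lemma putR_putR (s : Conf d L) (a b : RC d n) : putR (putR s a) b = putR s b := by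
  funext w
  unfold putR
  split_ifs <;> rfl

lemma putR_rect (s : Conf d L) : putR s (rect n s) = s := by
  funext w
  unfold putR
  split_ifs with h
  · unfold rect
    congr 1
    ext <;> simp
  · rfl

lemma val_sub_lt (x : ZMod L) (p r : ℕ) (hr : 0 < r) (h : p + r ≤ L) :
    (x - (p : ZMod L)).val < r ↔ p ≤ x.val ∧ x.val < p + r := by
  have hx := x.val_lt
  have hp : ((p : ℕ) : ZMod L).val = p := ZMod.val_natCast_of_lt (by omega)
  by_cases hc : p ≤ x.val
  · have h1 : (x - (p : ZMod L)).val = x.val - p := by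
      rw [ZMod.val_sub (by rw [hp]; exact hc), hp]
    rw [h1]
    omega
  · have h1 : (x - (p : ZMod L)).val = x.val + (L - p) := by
      have e : x - (p : ZMod L) = ((x.val + (L - p) : ℕ) : ZMod L) := by
        rw [Nat.cast_add, Nat.cast_sub (by omega), ZMod.natCast_zmod_val, ZMod.natCast_self]
        ring
      rw [e, ZMod.val_natCast_of_lt (by omega)]
    rw [h1]
    omega

lemma val_sub_eq (x : ZMod L) (p : ℕ) (hp : p < L) (h : p ≤ x.val) :
    (x - (p : ZMod L)).val = x.val - p := by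
  have hp : ((p : ℕ) : ZMod L).val = p := ZMod.val_natCast_of_lt hp
  rw [ZMod.val_sub (by rw [hp]; exact h), hp]

end rect

section subR

variable {d n r : ℕ}

/-- the sub-box of the content of the rectangle -/
def subR (a : RC d n) (p : ℕ × ℕ) (h : p.1 + r ≤ n ∧ p.2 + r ≤ 2 * n) : BConf d r :=
  fun q => a (⟨p.1 + q.1, by have := q.1.2; omega⟩, ⟨p.2 + q.2, by have := q.2.2; omega⟩)

/-- change of the content of a sub-box of the rectangle -/
def putRR (a : RC d n) (p : ℕ × ℕ) (τ : BConf d r) : RC d n :=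
  fun q => if h : (p.1 ≤ (q.1 : ℕ) ∧ (q.1 : ℕ) < p.1 + r) ∧ (p.2 ≤ (q.2 : ℕ) ∧ (q.2 : ℕ) < p.2 + r)
    then τ (⟨q.1 - p.1, by omega⟩, ⟨q.2 - p.2, by omega⟩) else a q

lemma box_putR {L : ℕ} [NeZero L] (hL : 2 * n ≤ L) (s : Conf d L) (a : RC d n) (p : ℕ × ℕ)
    (h : p.1 + r ≤ n ∧ p.2 + r ≤ 2 * n) :
    box r (putR s a) ((p.1 : ZMod L), (p.2 : ZMod L)) = subR a p h := by
  funext q
  have h1 := q.1.2
  have h2 := q.2.2
  have e1 : ((p.1 : ZMod L) + ((q.1 : ℕ) : ZMod L)).val = p.1 + q.1 := by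
    rw [← Nat.cast_add, ZMod.val_natCast_of_lt (by omega)]
  have e2 : ((p.2 : ZMod L) + ((q.2 : ℕ) : ZMod L)).val = p.2 + q.2 := by
    rw [← Nat.cast_add, ZMod.val_natCast_of_lt (by omega)]
  unfold box putR subR
  simp only [e1, e2]
  rw [dif_pos ⟨by omega, by omega⟩]

lemma put_putR {L : ℕ} [NeZero L] (hr : 0 < r) (hL : 2 * n ≤ L) (s : Conf d L) (a : RC d n)
    (p : ℕ × ℕ) (h : p.1 + r ≤ n ∧ p.2 + r ≤ 2 * n) (τ : BConf d r) :
    put (putR s a) ((p.1 : ZMod L), (p.2 : ZMod L)) τ = putR s (putRR a p τ) := by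
  funext w
  have e1 := val_sub_lt w.1 p.1 r hr (by omega)
  have e2 := val_sub_lt w.2 p.2 r hr (by omega)
  by_cases hc : (p.1 ≤ w.1.val ∧ w.1.val < p.1 + r) ∧ (p.2 ≤ w.2.val ∧ w.2.val < p.2 + r)
  · have g1 := val_sub_eq w.1 p.1 (by omega) hc.1.1
    have g2 := val_sub_eq w.2 p.2 (by omega) hc.2.1
    unfold put putR putRR
    simp only
    rw [dif_pos ⟨e1.2 hc.1, e2.2 hc.2⟩, dif_pos ⟨by omega, by omega⟩, dif_pos hc]
    congr 1
    ext
    · exact g1
    · exact g2
  · unfold put putR putRR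
    simp only
    rw [dif_neg (by rw [e1, e2]; exact hc)]
    by_cases hc2 : w.1.val < n ∧ w.2.val < 2 * n
    · rw [dif_pos hc2, dif_pos hc2, dif_neg hc]
    · rw [dif_neg hc2, dif_neg hc2]

/-- gluing the two halves -/
def glue (a b : RC d n) : BConf d (2 * n) :=
  fun q => if h : (q.1 : ℕ) < n then a (⟨q.1, h⟩, q.2)
    else b (⟨q.1 - n, by have := q.1.2; omega⟩, q.2)

/-- the halves of a block configuration -/
def hlv : RC d n × RC d n ≃ BConf d (2 * n) where
  toFun x := glue x.1 x.2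
  invFun σ := (fun q => σ (⟨q.1, by have := q.1.2; omega⟩, q.2),
    fun q => σ (⟨n + q.1, by have := q.1.2; omega⟩, q.2))
  left_inv x := by
    obtain ⟨a, b⟩ := x
    unfold glue
    apply Prod.ext
    · funext q
      simp
    · funext q
      simp
  right_inv σ := by
    funext q
    unfold glue
    simp only
    split_ifs with h
    · rfl
    · congr 1
      ext
      · simp only
        omega
      · rfl

lemma subBox_glue1 (a b : RC d n) (p : ℕ × ℕ) (h : p.1 + r ≤ 2 * n ∧ p.2 + r ≤ 2 * n)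
    (h' : p.1 + r ≤ n ∧ p.2 + r ≤ 2 * n) : subBox (glue a b) p h = subR a p h' := by
  funext q
  have h1 := q.1.2
  unfold subBox glue subR
  simp only
  rw [dif_pos (by omega)]

lemma subPut_glue1 (a b : RC d n) (p : ℕ × ℕ) (h' : p.1 + r ≤ n ∧ p.2 + r ≤ 2 * n)
    (τ : BConf d r) : subPut (glue a b) p τ = glue (putRR a p τ) b := by
  funext q
  unfold subPut glue putRR
  simp only
  by_cases h1 : (q.1 : ℕ) < n
  · rw [dif_pos h1, dif_pos h1]
  · rw [dif_neg h1, dif_neg h1, dif_neg (by omega)]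

lemma subBox_glue2 (a b : RC d n) (p : ℕ × ℕ) (h : p.1 + r ≤ 2 * n ∧ p.2 + r ≤ 2 * n)
    (hp : n ≤ p.1) (h' : (p.1 - n, p.2).1 + r ≤ n ∧ (p.1 - n, p.2).2 + r ≤ 2 * n) :
    subBox (glue a b) p h = subR b (p.1 - n, p.2) h' := by
  funext q
  unfold subBox glue subR
  simp only
  rw [dif_neg (by omega)]
  congr 1
  ext
  · simp only
    omega
  · rfl

lemma subPut_glue2 (a b : RC d n) (p : ℕ × ℕ) (hp : n ≤ p.1)
    (τ : BConf d r) : subPut (glue a b) p τ = glue a (putRR b (p.1 - n, p.2) τ) := by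
  funext q
  unfold subPut glue putRR
  simp only
  by_cases h1 : (q.1 : ℕ) < n
  · rw [dif_pos h1, dif_pos h1, dif_neg (by omega)]
  · rw [dif_neg h1, dif_neg h1]
    by_cases h2 : (p.1 ≤ (q.1 : ℕ) ∧ (q.1 : ℕ) < p.1 + r) ∧
        (p.2 ≤ (q.2 : ℕ) ∧ (q.2 : ℕ) < p.2 + r)
    · rw [dif_pos h2, dif_pos ⟨⟨by omega, by omega⟩, h2.2⟩]
      congr 1
      ext
      · simp only
        omega
      · rfl
    · rw [dif_neg h2, dif_neg]
      intro h3
      apply h2
      exact ⟨⟨by omega, by omega⟩, h3.2⟩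

end subR

theorem purify : StmPurify := by
  intro d L n _ hn hL Ψ hΨ
  have hne : Nonempty (Conf d L) := by
    by_contra hc
    rw [not_nonempty_iff] at hc
    simp [nrm] at hΨ
  obtain ⟨s0⟩ := hne
  have hRC : Nonempty (RC d n) := ⟨rect n s0⟩
  obtain ⟨K, hK⟩ : ∃ K : ℝ, K = Fintype.card (RC d n) := ⟨_, rfl⟩
  have hKpos : 0 < K := by
    rw [hK]
    exact_mod_cast Fintype.card_pos
  have hKC : (K : ℂ) ≠ 0 := by exact_mod_cast hKpos.ne'
  obtain ⟨A, hA⟩ : ∃ A : Matrix (RC d n) (Conf d L) ℂ, A = fun a s => Ψ (putR s a) := ⟨_, rfl⟩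
  obtain ⟨ρ, hρ⟩ : ∃ ρ : Matrix (RC d n) (RC d n) ℂ,
    ρ = ((K⁻¹ : ℝ) : ℂ) • (A * A.conjTranspose) := ⟨_, rfl⟩
  have hρpsd : ρ.PosSemidef := by
    rw [hρ]
    apply (Matrix.posSemidef_self_mul_conjTranspose A).smul
    rw [Complex.zero_le_real]
    positivity
  have hρ1 : ∀ a b, (K : ℂ) * ρ a b = ∑ s, Ψ (putR s a) * conj (Ψ (putR s b)) := by
    intro a b
    rw [hρ, Matrix.smul_apply, Matrix.mul_apply, smul_eq_mul, ← mul_assoc, ← Complex.ofReal_mul,
      mul_inv_cancel₀ hKpos.ne', Complex.ofReal_one, one_mul]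
    apply Finset.sum_congr rfl
    intro s _
    rw [Matrix.conjTranspose_apply, hA]
    rfl
  obtain ⟨Θ, hΘ1, hΘ2⟩ := takagi ρ hρpsd
  have hsym : ∀ a b, Θ a b = Θ b a := by
    intro a b
    exact (congrFun (congrFun hΘ1 b) a)
  have hΘρ : ∀ a b, ∑ c, Θ a c * conj (Θ b c) = ρ a b := by
    intro a b
    rw [← hΘ2, Matrix.mul_apply]
    rfl
  obtain ⟨Φ, hΦ⟩ : ∃ Φ : BConf d (2 * n) → ℂ,
    Φ = fun σ => Θ ((hlv.symm σ).1) ((hlv.symm σ).2) := ⟨_, rfl⟩
  have hΦg : ∀ a b, Φ (glue a b) = Θ a b := by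
    intro a b
    have e : (hlv.symm (glue a b) : RC d n × RC d n) = (a, b) := hlv.symm_apply_apply (a, b)
    rw [hΦ]
    simp only
    rw [e]
  have hsum : ∀ G : BConf d (2 * n) → ℂ, ∑ σ, G σ = ∑ a : RC d n, ∑ b : RC d n, G (glue a b) := by
    intro G
    rw [← hlv.sum_comp G, Fintype.sum_prod_type]
    rfl
  -- the common value
  have hexp : ∀ (r : ℕ) (p : ℕ × ℕ) (h : p.1 + r ≤ n ∧ p.2 + r ≤ 2 * n), 0 < r →
      ∀ B : BConf d r → BConf d r → ℂ, expec Ψ ((p.1 : ZMod L), (p.2 : ZMod L)) B =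
        ∑ a : RC d n, ∑ τ : BConf d r, B (subR a p h) τ * ρ (putRR a p τ) a := by
    intro r p h hr B
    have g1 := avg (rect n) (fun (s : Conf d L) (a : RC d n) => putR s a)
      (fun s a => rect_putR hL s a) (fun s a b => putR_putR s a b) (fun s => putR_rect s)
      (fun s => ∑ τ : BConf d r, conj (Ψ s) * B (box r s ((p.1 : ZMod L), (p.2 : ZMod L))) τ *
        Ψ (put s ((p.1 : ZMod L), (p.2 : ZMod L)) τ))
    simp only [box_putR hL _ _ p h, put_putR hr hL _ _ p h] at g1
    have g2 : (K : ℂ) * expec Ψ ((p.1 : ZMod L), (p.2 : ZMod L)) B =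
        (K : ℂ) * ∑ a : RC d n, ∑ τ : BConf d r, B (subR a p h) τ * ρ (putRR a p τ) a := by
      have e1 : (K : ℂ) * expec Ψ ((p.1 : ZMod L), (p.2 : ZMod L)) B =
          ∑ s : Conf d L, ∑ a : RC d n, ∑ τ : BConf d r, conj (Ψ (putR s a)) *
            B (subR a p h) τ * Ψ (putR s (putRR a p τ)) := by
        rw [← g1, nsmul_eq_mul, hK]
        unfold expec
        push_cast
        rfl
      rw [e1, Finset.sum_comm, Finset.mul_sum]
      apply Finset.sum_congr rfl
      intro a _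
      rw [Finset.sum_comm, Finset.mul_sum]
      apply Finset.sum_congr rfl
      intro τ _
      rw [mul_left_comm, hρ1, Finset.mul_sum]
      apply Finset.sum_congr rfl
      intro s _
      ring
    exact mul_left_cancel₀ hKC g2
  refine ⟨Φ, ?_, ?_⟩
  · have h1 : ((nrm Φ : ℝ) : ℂ) = 1 := by
      have e1 : ((nrm Φ : ℝ) : ℂ) = ∑ σ, Φ σ * conj (Φ σ) := by
        unfold nrm
        push_cast
        apply Finset.sum_congr rfl
        intro σ _
        rw [Complex.mul_conj, Complex.normSq_eq_norm_sq]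
        push_cast
        rfl
      rw [e1, hsum]
      simp only [hΦg, hΘρ]
      apply mul_left_cancel₀ hKC
      rw [Finset.mul_sum]
      simp only [hρ1]
      rw [Finset.sum_comm]
      have g3 := avg (rect n) (fun (s : Conf d L) (a : RC d n) => putR s a)
        (fun s a => rect_putR hL s a) (fun s a b => putR_putR s a b) (fun s => putR_rect s)
        (fun s => Ψ s * conj (Ψ s))
      rw [← g3, nsmul_eq_mul, mul_one]
      have e2 : ∑ s, Ψ s * conj (Ψ s) = ((nrm Ψ : ℝ) : ℂ) := by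
        unfold nrm
        push_cast
        apply Finset.sum_congr rfl
        intro σ _
        rw [Complex.mul_conj, Complex.normSq_eq_norm_sq]
        push_cast
        rfl
      rw [e2, hΨ, hK]
      simp
    exact_mod_cast h1
  · intro r p h hr hp B
    by_cases hc : p.1 + r ≤ n
    · have h' : p.1 + r ≤ n ∧ p.2 + r ≤ 2 * n := ⟨hc, h.2⟩
      rw [if_pos hc, hexp r p h' hr B]
      unfold expecBlock
      rw [hsum]
      simp only [hΦg, subBox_glue1 _ _ p h h', subPut_glue1 _ _ p h']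
      apply Finset.sum_congr rfl
      intro a _
      rw [Finset.sum_comm]
      apply Finset.sum_congr rfl
      intro τ _
      rw [← hΘρ, Finset.mul_sum]
      apply Finset.sum_congr rfl
      intro b _
      ring
    · have hp' : n ≤ p.1 := hp.resolve_left hc
      have h' : (p.1 - n, p.2).1 + r ≤ n ∧ (p.1 - n, p.2).2 + r ≤ 2 * n :=
        ⟨by simp only; omega, h.2⟩
      rw [if_neg hc, hexp r (p.1 - n, p.2) h' hr B]
      unfold expecBlock
      rw [hsum, Finset.sum_comm]
      simp only [hΦg, subBox_glue2 _ _ p h hp' h', subPut_glue2 _ _ p hp']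
      apply Finset.sum_congr rfl
      intro b _
      rw [Finset.sum_comm]
      apply Finset.sum_congr rfl
      intro τ _
      rw [← hΘρ, Finset.mul_sum]
      apply Finset.sum_congr rfl
      intro a _
      rw [hsym a b, hsym a (putRR b (p.1 - n, p.2) τ)]
      ring

end Pool.Agent.Y65.PE
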