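import Pool.Agent.Y738.PE.Stm

/-! # PE-J4: translation invariant weights -/

set_option autoImplicit false

open scoped BigOperators ComplexConjugate Classical

noncomputable section

namespace Pool.Agent.Y65.PE

open Pool.Agent.Y738.PE Finset

lemma sum_le_of_inj {ι : Type} (S T : Finset ι) (e : ι → ι) (W : ι → ℝ) (h0 : ∀ x, 0 ≤ W x)
    (he : Set.InjOn e S) (hT : ∀ x ∈ S, e x ∈ T) (hW : ∀ x ∈ S, W (e x) = W x) :
    ∑ x ∈ S, W x ≤ ∑ x ∈ T, W x := by
  calc ∑ x ∈ S, W x = ∑ x ∈ S, W (e x) := sum_congr rfl fun x hx => (hW x hx).symm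
    _ = ∑ y ∈ S.image e, W y := (sum_image he).symm
    _ ≤ ∑ x ∈ T, W x :=
        sum_le_sum_of_subset_of_nonneg (image_subset_iff.2 hT) fun x _ _ => h0 x

variable {L : ℕ} [NeZero L] {N : ℕ}

/-- the shift of a labelling -/
def sft (α : ZMod L → Lab N) : ZMod L → Lab N := fun x => α (x + 1)

/-- the inverse shift -/
def sftm (α : ZMod L → Lab N) : ZMod L → Lab N := fun x => α (x - 1)

omit [NeZero L] in
lemma sft_sftm (α : ZMod L → Lab N) : sft (sftm α) = α := by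
  funext x
  simp [sft, sftm]

omit [NeZero L] in
lemma sftm_sft (α : ZMod L → Lab N) : sftm (sft α) = α := by
  funext x
  simp [sft, sftm]

omit [NeZero L] in
lemma cyc_sft {α : ZMod L → Lab N} (h : Cyc α) : Cyc (sft α) := by
  intro x
  refine ⟨(h (x + 1)).1, ?_⟩
  have h1 := (h (x + 1)).2
  have e : x + 1 - 1 = x - 1 + 1 := by ring
  rw [e] at h1
  exact h1

omit [NeZero L] in
lemma cyc_sftm {α : ZMod L → Lab N} (h : Cyc α) : Cyc (sftm α) :=
  fun x => h (x - 1)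

omit [NeZero L] in
lemma pos_sft {α : ZMod L → Lab N} (h : Cyc α) {i : ℕ} (hi : ((α 0).2 : ℕ) = i)
    (hiN : i + 1 < N) : ((sft α 0).2 : ℕ) = i + 1 := by
  have h1 := (h (0 + 1)).2
  have e : (0 + 1 - 1 : ZMod L) = 0 := by ring
  rw [e] at h1
  unfold sft
  rcases h1 with h1 | h1
  · rw [h1.2, hi]
  · exfalso
    have := h1.1
    omega

omit [NeZero L] in
lemma pos_sftm {α : ZMod L → Lab N} (h : Cyc α) {i : ℕ} (hi : ((α 0).2 : ℕ) = i + 1) :
    ((sftm α 0).2 : ℕ) = i := by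
  have h1 := (h 0).2
  unfold sftm
  rcases h1 with h1 | h1
  · have := h1.2
    omega
  · exfalso
    have := h1.2
    omega

/-- the weight of the tilings with given position of the site `0` -/
def Qw (W : Til N L → ℝ) (i j : ℕ) : ℝ :=
  ∑ θ ∈ (univ : Finset (Til N L)).filter
    (fun θ => Valid θ ∧ ((θ.1 0).2 : ℕ) = i ∧ ((θ.2 0).2 : ℕ) = j), W θ

section

variable (W : Til N L → ℝ) (hW0 : ∀ θ, 0 ≤ W θ)
  (hW1 : ∀ θ, Valid θ → W (fun x => θ.1 (x + 1), θ.2) = W θ)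
  (hW2 : ∀ θ, Valid θ → W (θ.1, fun x => θ.2 (x + 1)) = W θ)

include hW0 hW1 in
lemma Qw_down1 (i j : ℕ) : Qw W (i + 1) j ≤ Qw W i j := by
  unfold Qw
  apply sum_le_of_inj _ _ (fun θ : Til N L => ((sftm θ.1, θ.2) : Til N L)) W hW0
  · intro θ _ θ' _ he
    have h1 := congrArg (fun t : Til N L => sft t.1) he
    have h2 := congrArg (fun t : Til N L => t.2) he
    simp only [sft_sftm] at h1 h2
    exact Prod.ext h1 h2
  · intro θ hθ
    rw [mem_filter] at hθ ⊢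
    obtain ⟨-, hv, h1, h2⟩ := hθ
    exact ⟨mem_univ _, ⟨cyc_sftm hv.1, hv.2⟩, pos_sftm hv.1 h1, h2⟩
  · intro θ hθ
    rw [mem_filter] at hθ
    have h4 := hW1 ((sftm θ.1, θ.2) : Til N L) ⟨cyc_sftm hθ.2.1.1, hθ.2.1.2⟩
    have e : ((fun x => sftm θ.1 (x + 1), θ.2) : Til N L) = θ :=
      Prod.ext (sft_sftm θ.1) rfl
    simp only at h4
    rw [e] at h4
    exact h4.symm

include hW0 hW1 in
lemma Qw_up1 (i j : ℕ) (hi : i + 1 < N) : Qw W i j ≤ Qw W (i + 1) j := by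
  unfold Qw
  apply sum_le_of_inj _ _ (fun θ : Til N L => ((sft θ.1, θ.2) : Til N L)) W hW0
  · intro θ _ θ' _ he
    have h1 := congrArg (fun t : Til N L => sftm t.1) he
    have h2 := congrArg (fun t : Til N L => t.2) he
    simp only [sftm_sft] at h1 h2
    exact Prod.ext h1 h2
  · intro θ hθ
    rw [mem_filter] at hθ ⊢
    obtain ⟨-, hv, h1, h2⟩ := hθ
    exact ⟨mem_univ _, ⟨cyc_sft hv.1, hv.2⟩, pos_sft hv.1 h1 hi, h2⟩
  · intro θ hθ
    rw [mem_filter] at hθ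
    exact hW1 θ hθ.2.1

include hW0 hW2 in
lemma Qw_down2 (i j : ℕ) : Qw W i (j + 1) ≤ Qw W i j := by
  unfold Qw
  apply sum_le_of_inj _ _ (fun θ : Til N L => ((θ.1, sftm θ.2) : Til N L)) W hW0
  · intro θ _ θ' _ he
    have h1 := congrArg (fun t : Til N L => t.1) he
    have h2 := congrArg (fun t : Til N L => sft t.2) he
    simp only [sft_sftm] at h1 h2
    exact Prod.ext h1 h2
  · intro θ hθ
    rw [mem_filter] at hθ ⊢
    obtain ⟨-, hv, h1, h2⟩ := hθ
    exact ⟨mem_univ _, ⟨hv.1, cyc_sftm hv.2⟩, h1, pos_sftm hv.2 h2⟩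
  · intro θ hθ
    rw [mem_filter] at hθ
    have h4 := hW2 ((θ.1, sftm θ.2) : Til N L) ⟨hθ.2.1.1, cyc_sftm hθ.2.1.2⟩
    have e : ((θ.1, fun x => sftm θ.2 (x + 1)) : Til N L) = θ :=
      Prod.ext rfl (sft_sftm θ.2)
    simp only at h4
    rw [e] at h4
    exact h4.symm

include hW0 hW2 in
lemma Qw_up2 (i j : ℕ) (hj : j + 1 < N) : Qw W i j ≤ Qw W i (j + 1) := by
  unfold Qw
  apply sum_le_of_inj _ _ (fun θ : Til N L => ((θ.1, sft θ.2) : Til N L)) W hW0
  · intro θ _ θ' _ he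
    have h1 := congrArg (fun t : Til N L => t.1) he
    have h2 := congrArg (fun t : Til N L => sftm t.2) he
    simp only [sftm_sft] at h1 h2
    exact Prod.ext h1 h2
  · intro θ hθ
    rw [mem_filter] at hθ ⊢
    obtain ⟨-, hv, h1, h2⟩ := hθ
    exact ⟨mem_univ _, ⟨hv.1, cyc_sft hv.2⟩, h1, pos_sft hv.2 h2 hj⟩
  · intro θ hθ
    rw [mem_filter] at hθ
    exact hW2 θ hθ.2.1

include hW0 hW1 hW2 in
lemma Qw_le (i j : ℕ) : Qw W i j ≤ Qw W 0 0 := by
  have h1 : ∀ j, Qw W i j ≤ Qw W 0 j := by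
    intro j
    induction i with
    | zero => exact le_rfl
    | succ i ih => exact (Qw_down1 W hW0 hW1 i j).trans ih
  have h2 : Qw W 0 j ≤ Qw W 0 0 := by
    induction j with
    | zero => exact le_rfl
    | succ j ih => exact (Qw_down2 W hW0 hW2 0 j).trans ih
  exact (h1 j).trans h2

include hW0 hW1 hW2 in
lemma le_Qw (i j : ℕ) (hi : i < N) (hj : j < N) : Qw W 0 0 ≤ Qw W i j := by
  have h1 : ∀ i, i < N → Qw W 0 j ≤ Qw W i j := by
    intro i
    induction i with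
    | zero => exact fun _ => le_rfl
    | succ i ih => exact fun hi => (ih (by omega)).trans (Qw_up1 W hW0 hW1 i j hi)
  have h2 : ∀ j, j < N → Qw W 0 0 ≤ Qw W 0 j := by
    intro j
    induction j with
    | zero => exact fun _ => le_rfl
    | succ j ih => exact fun hj => (ih (by omega)).trans (Qw_up2 W hW0 hW2 0 j hj)
  exact (h2 j hj).trans (h1 i hi)

lemma Qw_fiber (G : Finset (ℕ × ℕ)) :
    ∑ x ∈ G, Qw W x.1 x.2 = ∑ θ ∈ (univ : Finset (Til N L)).filter
      (fun θ => Valid θ ∧ (((θ.1 0).2 : ℕ), ((θ.2 0).2 : ℕ)) ∈ G), W θ := by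
  rw [← Finset.sum_fiberwise_of_maps_to (s := (univ : Finset (Til N L)).filter
      (fun θ => Valid θ ∧ (((θ.1 0).2 : ℕ), ((θ.2 0).2 : ℕ)) ∈ G)) (t := G)
      (g := fun θ : Til N L => (((θ.1 0).2 : ℕ), ((θ.2 0).2 : ℕ)))
      (fun θ hθ => (mem_filter.1 hθ).2.2)]
  apply Finset.sum_congr rfl
  intro x hx
  unfold Qw
  apply Finset.sum_congr _ fun _ _ => rfl
  ext θ
  simp only [mem_filter, mem_univ, true_and]
  constructor
  · rintro ⟨h1, h2, h3⟩
    refine ⟨⟨h1, ?_⟩, ?_⟩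
    · rw [h2, h3]
      exact hx
    · rw [h2, h3]
  · rintro ⟨⟨h1, -⟩, h2⟩
    rw [← h2]
    exact ⟨h1, rfl, rfl⟩

end

/-- the good positions -/
def Gp (m M : ℕ) (Pos : Finset (ℕ × ℕ)) : Finset (ℕ × ℕ) :=
  ((range (m * M + 1)) ×ˢ (range (m * M + 1))).filter
    (fun x => Blk m M x.1 x.2 ∧ ((x.1 - 1) % m, (x.2 - 1) % m) ∈ Pos)

lemma Gp_card (m M : ℕ) (hm : 0 < m) (Pos : Finset (ℕ × ℕ))
    (hP : ∀ p ∈ Pos, p.1 < m ∧ p.2 < m) : M * (M - 1) * Pos.card ≤ (Gp m M Pos).card := by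
  have h1 : M * (M - 1) = ((range M).offDiag).card := by
    rw [offDiag_card, card_range, Nat.mul_sub, mul_one]
  rw [h1, ← card_product]
  apply card_le_card_of_injOn
    (fun x : (ℕ × ℕ) × (ℕ × ℕ) => (1 + (m * x.1.1 + x.2.1), 1 + (m * x.1.2 + x.2.2)))
  · rintro ⟨⟨u, v⟩, ⟨p, q⟩⟩ hx
    rw [mem_coe, mem_product, mem_offDiag, mem_range, mem_range] at hx
    obtain ⟨⟨hu, hv, huv⟩, hpq⟩ := hx
    obtain ⟨hp, hq⟩ := hP _ hpq
    simp only at hu hv huv hp hq
    have b1 : m * u + p < m * M := by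
      calc m * u + p < m * u + m := by omega
        _ = m * (u + 1) := by ring
        _ ≤ m * M := Nat.mul_le_mul_left _ hu
    have b2 : m * v + q < m * M := by
      calc m * v + q < m * v + m := by omega
        _ = m * (v + 1) := by ring
        _ ≤ m * M := Nat.mul_le_mul_left _ hv
    have d1 : (m * u + p) / m = u := by
      rw [Nat.mul_add_div hm, Nat.div_eq_of_lt hp, add_zero]
    have d2 : (m * v + q) / m = v := by
      rw [Nat.mul_add_div hm, Nat.div_eq_of_lt hq, add_zero]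
    have m1 : (m * u + p) % m = p := by
      rw [Nat.mul_add_mod, Nat.mod_eq_of_lt hp]
    have m2 : (m * v + q) % m = q := by
      rw [Nat.mul_add_mod, Nat.mod_eq_of_lt hq]
    unfold Gp Blk
    simp only [mem_coe, mem_filter, mem_product, mem_range, Nat.add_sub_cancel_left, d1, d2, m1, m2]
    exact ⟨⟨by omega, by omega⟩, ⟨by omega, by omega, by omega, by omega, huv⟩, hpq⟩
  · rintro ⟨⟨u, v⟩, ⟨p, q⟩⟩ hx ⟨⟨u', v'⟩, ⟨p', q'⟩⟩ hx' he
    rw [mem_coe, mem_product] at hx hx'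
    obtain ⟨hp, hq⟩ := hP _ hx.2
    obtain ⟨hp', hq'⟩ := hP _ hx'.2
    simp only at hp hq hp' hq'
    have e1 : m * u + p = m * u' + p' := by
      have := congrArg Prod.fst he
      simp only at this
      omega
    have e2 : m * v + q = m * v' + q' := by
      have := congrArg Prod.snd he
      simp only at this
      omega
    have d1 := congrArg (· / m) e1
    have d2 := congrArg (· / m) e2
    have m1 := congrArg (· % m) e1
    have m2 := congrArg (· % m) e2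
    simp only [Nat.mul_add_div hm, Nat.div_eq_of_lt hp, Nat.div_eq_of_lt hp', add_zero,
      Nat.div_eq_of_lt hq, Nat.div_eq_of_lt hq', Nat.mul_add_mod, Nat.mod_eq_of_lt hp,
      Nat.mod_eq_of_lt hp', Nat.mod_eq_of_lt hq, Nat.mod_eq_of_lt hq'] at d1 d2 m1 m2
    subst d1 d2 m1 m2
    rfl

theorem weights : StmWeights := by
  intro m M L _ hm _ W hW0 hW1 hW2 Pos hP
  obtain ⟨q, hq⟩ : ∃ q, q = Qw W 0 0 := ⟨_, rfl⟩
  have hq0 : 0 ≤ q := by
    rw [hq]
    exact Finset.sum_nonneg fun θ _ => hW0 θ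
  have htot : ∑ θ ∈ (univ : Finset (Til (m * M + 1) L)).filter Valid, W θ ≤
      (((m * M + 2) ^ 2 : ℕ) : ℝ) * q := by
    have h1 := Qw_fiber W ((range (m * M + 2)) ×ˢ (range (m * M + 2)))
    have h2 : (univ : Finset (Til (m * M + 1) L)).filter
        (fun θ => Valid θ ∧ (((θ.1 0).2 : ℕ), ((θ.2 0).2 : ℕ)) ∈
          (range (m * M + 2)) ×ˢ (range (m * M + 2))) =
        (univ : Finset (Til (m * M + 1) L)).filter Valid := by
      apply filter_congr
      intro θ _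
      constructor
      · exact fun h => h.1
      · intro h
        refine ⟨h, ?_⟩
        rw [mem_product, mem_range, mem_range]
        have a1 := (θ.1 0).2.2
        have a2 := (θ.2 0).2.2
        exact ⟨a1, a2⟩
    rw [h2] at h1
    rw [← h1]
    refine (Finset.sum_le_sum fun x _ => (Qw_le W hW0 hW1 hW2 x.1 x.2).trans hq.ge).trans ?_
    rw [Finset.sum_const, card_product, card_range, nsmul_eq_mul, pow_two]
  have hres : ((M * (M - 1) * Pos.card : ℕ) : ℝ) * q ≤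
      ∑ θ ∈ (univ : Finset (Til (m * M + 1) L)).filter
        (fun θ => Valid θ ∧ Blk m M (θ.1 0).2 (θ.2 0).2 ∧
          ((((θ.1 0).2 : ℕ) - 1) % m, (((θ.2 0).2 : ℕ) - 1) % m) ∈ Pos), W θ := by
    have h1 := Qw_fiber W (Gp m M Pos)
    have h2 : (univ : Finset (Til (m * M + 1) L)).filter
        (fun θ => Valid θ ∧ (((θ.1 0).2 : ℕ), ((θ.2 0).2 : ℕ)) ∈ Gp m M Pos) =
        (univ : Finset (Til (m * M + 1) L)).filter
        (fun θ => Valid θ ∧ Blk m M (θ.1 0).2 (θ.2 0).2 ∧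
          ((((θ.1 0).2 : ℕ) - 1) % m, (((θ.2 0).2 : ℕ) - 1) % m) ∈ Pos) := by
      apply filter_congr
      intro θ _
      unfold Gp
      rw [mem_filter, mem_product, mem_range, mem_range]
      constructor
      · rintro ⟨h3, -, h4⟩
        exact ⟨h3, h4⟩
      · rintro ⟨h3, h4⟩
        refine ⟨h3, ⟨?_, ?_⟩, h4⟩
        · have := h4.1.2.1
          simp only
          omega
        · have := h4.1.2.2.2.1
          simp only
          omega
    rw [h2] at h1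
    rw [← h1]
    have h3 : (((Gp m M Pos).card : ℕ) : ℝ) * q ≤ ∑ x ∈ Gp m M Pos, Qw W x.1 x.2 := by
      rw [← nsmul_eq_mul, ← Finset.sum_const]
      apply Finset.sum_le_sum
      intro x hx
      unfold Gp at hx
      rw [mem_filter, mem_product, mem_range, mem_range] at hx
      rw [hq]
      exact le_Qw W hW0 hW1 hW2 x.1 x.2 hx.1.1 hx.1.2
    have h4 : ((M * (M - 1) * Pos.card : ℕ) : ℝ) ≤ (((Gp m M Pos).card : ℕ) : ℝ) := by
      exact_mod_cast Gp_card m M hm Pos hP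
    exact (mul_le_mul_of_nonneg_right h4 hq0).trans h3
  have hA : (0 : ℝ) ≤ ((M * (M - 1) * Pos.card : ℕ) : ℝ) := Nat.cast_nonneg _
  have hB : (0 : ℝ) ≤ (((m * M + 2) ^ 2 : ℕ) : ℝ) := Nat.cast_nonneg _
  calc ((M * (M - 1) * Pos.card : ℕ) : ℝ) *
      (∑ θ ∈ (univ : Finset (Til (m * M + 1) L)).filter Valid, W θ) ≤
      ((M * (M - 1) * Pos.card : ℕ) : ℝ) * ((((m * M + 2) ^ 2 : ℕ) : ℝ) * q) :=
        mul_le_mul_of_nonneg_left htot hA
    _ = (((m * M + 2) ^ 2 : ℕ) : ℝ) * (((M * (M - 1) * Pos.card : ℕ) : ℝ) * q) := by ring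
    _ ≤ _ := mul_le_mul_of_nonneg_left hres hB

end Pool.Agent.Y65.PE
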